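import Pool.Agent.MP_c1891a_nt.H43.Spec
import Pool.Agent.MP_c1891a_nt.H52.Def

/-
Row Def: the truncated logarithmic sum over the conjugates of a torsion point is large.
-/

namespace Pool.Agent.MP_c1891a_nt.H43

open Finset Polynomial

lemma def_multi (S : Finset ℕ) (x : ℕ → ℂ) (T : ℝ) (m : Multiset ℂ)
    (h : ∀ α ∈ m, (∀ j ∈ S, x j - α ≠ 0) ∧
      (S.card : ℝ) * Real.log (max 1 ‖α‖) - T ≤ ∑ j ∈ S, Real.log ‖x j - α‖) :
    (∀ j ∈ S, (m.map (x j - ·)).prod ≠ 0) ∧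
    (S.card : ℝ) * (m.map fun a => Real.posLog ‖a‖).sum - m.card * T ≤
      ∑ j ∈ S, Real.log ‖(m.map (x j - ·)).prod‖ := by
  induction m using Multiset.induction_on with
  | empty => simp
  | cons a m ih =>
    obtain ⟨h1, h2⟩ := h a (Multiset.mem_cons_self _ _)
    obtain ⟨h3, h4⟩ := ih fun α hα => h α (Multiset.mem_cons_of_mem hα)
    simp only [Multiset.card_cons, Multiset.map_cons, Multiset.prod_cons, Multiset.sum_cons]
    refine ⟨fun j hj => mul_ne_zero (h1 j hj) (h3 j hj), ?_⟩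
    rw [Finset.sum_congr rfl fun j hj => by
      rw [norm_mul, Real.log_mul (norm_ne_zero_iff.2 (h1 j hj)) (norm_ne_zero_iff.2 (h3 j hj))],
      sum_add_distrib, Real.posLog_eq_log_max_one (norm_nonneg a)]
    push_cast
    linarith

lemma def_poly (F : ℂ[X]) (hF : F ≠ 0) (S : Finset ℕ) (x : ℕ → ℂ) (T : ℝ) (hT : 0 ≤ T) (a : ℕ)
    (ha : F.natDegree ≤ a) (h : ∀ α ∈ F.roots, (∀ j ∈ S, x j - α ≠ 0) ∧
      (S.card : ℝ) * Real.log (max 1 ‖α‖) - T ≤ ∑ j ∈ S, Real.log ‖x j - α‖) :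
    (∀ j ∈ S, F.eval (x j) ≠ 0) ∧
    (S.card : ℝ) * F.logMahlerMeasure - a * T ≤ ∑ j ∈ S, Real.log ‖F.eval (x j)‖ := by
  obtain ⟨h1, h2⟩ := def_multi S x T F.roots h
  have hl : F.leadingCoeff ≠ 0 := leadingCoeff_ne_zero.2 hF
  have he := fun y => (IsAlgClosed.splits F).eval_eq_prod_roots y
  refine ⟨fun j hj => by rw [he]; exact mul_ne_zero hl (h1 j hj), ?_⟩
  rw [Finset.sum_congr rfl fun j hj => by
      rw [he, norm_mul, Real.log_mul (norm_ne_zero_iff.2 hl) (norm_ne_zero_iff.2 (h1 j hj))],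
    sum_add_distrib, sum_const, nsmul_eq_mul,
    logMahlerMeasure_eq_log_leadingCoeff_add_sum_log_roots]
  have hc : (F.roots.card : ℝ) ≤ a := by exact_mod_cast (card_roots' F).trans ha
  have := mul_le_mul_of_nonneg_right hc hT
  linarith

lemma def_ex (P : LP) (v₁ v₂ : ℤ) {μ : ℤ × ℤ} (hμ : μ ∈ P.coeff.support) :
    (ex P v₁ v₂ μ : ℤ) = A1 P v₁ v₂ + v₁ * μ.1 + v₂ * μ.2 ∧ ex P v₁ v₂ μ ≤ 2 * A1 P v₁ v₂ := by
  have h : max μ.1.natAbs μ.2.natAbs ≤ Rn P :=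
    Finset.le_sup (f := fun μ : ℤ × ℤ => max μ.1.natAbs μ.2.natAbs) hμ
  have h1 : (v₁ * μ.1).natAbs ≤ Rn P * v₁.natAbs := by
    rw [Int.natAbs_mul, mul_comm]
    exact Nat.mul_le_mul_right _ ((le_max_left _ _).trans h)
  have h2 : (v₂ * μ.2).natAbs ≤ Rn P * v₂.natAbs := by
    rw [Int.natAbs_mul, mul_comm]
    exact Nat.mul_le_mul_right _ ((le_max_right _ _).trans h)
  have h3 : A1 P v₁ v₂ = Rn P * v₁.natAbs + Rn P * v₂.natAbs := mul_add _ _ _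
  unfold ex
  omega

lemma def_eval (P : LP) (η₁ η₂ : ℂ) (v₁ v₂ : ℤ) {t : ℂ} (ht : t ≠ 0) :
    (F1 P η₁ η₂ v₁ v₂).eval t = t ^ A1 P v₁ v₂ * ev P (η₁ * t ^ v₁) (η₂ * t ^ v₂) := by
  unfold F1 ev
  rw [eval_finsetSum, mul_sum]
  refine Finset.sum_congr rfl fun μ hμ => ?_
  rw [eval_mul, eval_C, eval_pow, eval_X, ← zpow_natCast, (def_ex P v₁ v₂ hμ).1, zpow_add₀ ht,
    zpow_add₀ ht, mul_zpow, mul_zpow, zpow_mul, zpow_mul, zpow_natCast]
  ring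

lemma def_deg (P : LP) (η₁ η₂ : ℂ) (v₁ v₂ : ℤ) :
    (F1 P η₁ η₂ v₁ v₂).natDegree ≤ 2 * A1 P v₁ v₂ := by
  unfold F1
  refine natDegree_sum_le_of_forall_le _ _ fun μ hμ => (natDegree_C_mul_le _ _).trans ?_
  rw [natDegree_X_pow]
  exact (def_ex P v₁ v₂ hμ).2

lemma def_ne {P : LP} (hP : NoCoset P) {η₁ η₂ : ℂ} (h₁ : η₁ ≠ 0) (h₂ : η₂ ≠ 0) {v₁ v₂ : ℤ}
    (hv : v₁ ≠ 0 ∨ v₂ ≠ 0) : F1 P η₁ η₂ v₁ v₂ ≠ 0 := by
  obtain ⟨t, ht, h⟩ := hP η₁ η₂ h₁ h₂ v₁ v₂ hv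
  intro h0
  have := def_eval P η₁ η₂ v₁ v₂ ht
  rw [h0, eval_zero] at this
  exact mul_ne_zero (pow_ne_zero _ ht) h this.symm

lemma def_pert (P : LP) {η₁ η₂ u : ℂ} (h₁ : ‖η₁‖ = 1) (h₂ : ‖η₂‖ = 1) (hu : ‖u‖ = 1) (v₁ v₂ : ℤ)
    (N : ℕ) (hN : 2 * A1 P v₁ v₂ ≤ N) (z η : ℝ) (hz : 1 ≤ z) (hzN : z ^ N ≤ 1 + η) :
    ‖(F1 P η₁ η₂ v₁ v₂).eval (u * z)‖ ≤ ‖ev P (η₁ * u ^ v₁) (η₂ * u ^ v₂)‖ + Hn P * η := by
  have hu0 : u ≠ 0 := by rintro rfl; simp at hu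
  have e1 : ‖ev P (η₁ * u ^ v₁) (η₂ * u ^ v₂)‖ = ‖(F1 P η₁ η₂ v₁ v₂).eval u‖ := by
    rw [def_eval P η₁ η₂ v₁ v₂ hu0, norm_mul, norm_pow, hu, one_pow, one_mul]
  have e2 : ‖(F1 P η₁ η₂ v₁ v₂).eval (u * z) - (F1 P η₁ η₂ v₁ v₂).eval u‖ ≤ Hn P * η := by
    unfold F1 Hn
    rw [eval_finsetSum, eval_finsetSum, ← sum_sub_distrib, Nat.cast_sum, sum_mul]
    refine norm_sum_le_of_le _ fun μ hμ => ?_
    have hm := (def_ex P v₁ v₂ hμ).2.trans hN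
    have : (u * z) ^ ex P v₁ v₂ μ - u ^ ex P v₁ v₂ μ =
        u ^ ex P v₁ v₂ μ * ((z ^ ex P v₁ v₂ μ - 1 : ℝ) : ℂ) := by push_cast; ring
    simp only [eval_mul, eval_C, eval_pow, eval_X]
    rw [← mul_sub, this, norm_mul, norm_mul, norm_mul, norm_mul, norm_zpow, norm_zpow, norm_pow,
      h₁, h₂, hu, one_zpow, one_zpow, one_pow, mul_one, mul_one, one_mul, Complex.norm_intCast,
      Complex.norm_real, Real.norm_eq_abs,
      abs_of_nonneg (a := z ^ ex P v₁ v₂ μ - 1) (by linarith [one_le_pow₀ (n := ex P v₁ v₂ μ) hz]),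
      Nat.cast_natAbs, Int.cast_abs]
    refine mul_le_mul_of_nonneg_left ?_ (abs_nonneg _)
    linarith [pow_le_pow_right₀ hz hm]
  rw [e1]
  linarith [norm_le_insert' ((F1 P η₁ η₂ v₁ v₂).eval (u * z)) ((F1 P η₁ η₂ v₁ v₂).eval u)]

lemma def_asym (m c C D : ℝ) (hm : 0 < m) (hc : 0 ≤ c) (hC : 0 ≤ C) (hD : 0 ≤ D) :
    ∃ N₀ : ℕ, ∀ N : ℕ, N₀ ≤ N → ∀ n t φ : ℝ, 0 ≤ n → n ^ 2 ≤ c ^ 2 * N → 0 ≤ t →
      t ≤ (N : ℝ) ^ (1 / 10 : ℝ) → (N : ℝ) ^ (1 - 1 / 10 : ℝ) ≤ φ →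
      n ≤ N ∧ n * (t * (C + D * Real.log N)) + 1 ≤ m * φ := by
  obtain ⟨q₀, hq₀⟩ := exists_nat_ge (max (max 1 c) ((c * (C + 10 * D) + 1) / m))
  refine ⟨q₀ ^ 10, fun N hN n t φ hn0 hn ht0 ht hφ => ?_⟩
  have h1 : (1 : ℝ) ≤ q₀ := ((le_max_left _ _).trans (le_max_left _ _)).trans hq₀
  have h1' : c ≤ q₀ := ((le_max_right _ _).trans (le_max_left _ _)).trans hq₀
  have h2 : c * (C + 10 * D) + 1 ≤ q₀ * m := (div_le_iff₀ hm).mp ((le_max_right _ _).trans hq₀)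
  have hN' : (q₀ : ℝ) ^ 10 ≤ N := by exact_mod_cast hN
  have hN0 : (0 : ℝ) ≤ N := by positivity
  have e9 : (N : ℝ) ^ (1 - 1 / 10 : ℝ) = ((N : ℝ) ^ (1 / 10 : ℝ)) ^ 9 := by
    rw [← Real.rpow_natCast, ← Real.rpow_mul hN0]; norm_num
  have e10 : ((N : ℝ) ^ (1 / 10 : ℝ)) ^ 10 = N := by
    rw [← Real.rpow_natCast, ← Real.rpow_mul hN0]; norm_num
  have hq0 : 0 ≤ (N : ℝ) ^ (1 / 10 : ℝ) := by positivity
  rw [e9] at hφ
  generalize (N : ℝ) ^ (1 / 10 : ℝ) = q at *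
  have hqq : (q₀ : ℝ) ≤ q := by
    rw [← e10] at hN'
    exact le_of_pow_le_pow_left₀ (by norm_num) hq0 hN'
  have hq1 : 1 ≤ q := h1.trans hqq
  have hlog : Real.log N ≤ 10 * q := by
    rw [← e10, Real.log_pow]
    have := Real.log_le_sub_one_of_pos (by linarith : 0 < q)
    push_cast
    linarith
  have hlog0 : 0 ≤ Real.log N := Real.log_natCast_nonneg N
  have hnq : n ≤ c * q ^ 5 := by
    refine le_of_pow_le_pow_left₀ (n := 2) (by norm_num) (by positivity) ?_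
    calc n ^ 2 ≤ c ^ 2 * N := hn
      _ = (c * q ^ 5) ^ 2 := by rw [← e10]; ring
  have hq7 : 1 ≤ q ^ 7 := one_le_pow₀ hq1
  refine ⟨?_, ?_⟩
  · calc n ≤ c * q ^ 5 := hnq
      _ ≤ q * q ^ 5 := by gcongr; linarith
      _ = q ^ 6 := by ring
      _ ≤ q ^ 10 := pow_le_pow_right₀ hq1 (by norm_num)
      _ = N := e10
  · have hCq : C ≤ C * q := le_mul_of_one_le_right hC hq1
    calc n * (t * (C + D * Real.log N)) + 1
        ≤ c * q ^ 5 * (q * (C * q + D * (10 * q))) + q ^ 7 := by gcongr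
      _ = (c * (C + 10 * D) + 1) * q ^ 7 := by ring
      _ ≤ (q * m) * q ^ 8 := by
          have : (q₀ : ℝ) * m ≤ q * m := by gcongr
          have h78 : q ^ 7 ≤ q ^ 8 := pow_le_pow_right₀ hq1 (by norm_num)
          gcongr
          linarith
      _ = m * q ^ 9 := by ring
      _ ≤ m * φ := by gcongr

/-- the analytic core: a family of polynomials indexed by the classes modulo `g`. -/
lemma def_core (h4 : SRoot) (N g a : ℕ) (hN : 0 < N) (hg0 : 0 < g) (hg : g ∣ N) (X₀ : ℂ)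
    (hX : IsPrimitiveRoot X₀ N) (G : ℕ → ℂ[X]) (hG : ∀ j, G j ≠ 0)
    (hGa : ∀ j, (G j).natDegree ≤ a) (hGm : ∀ j, G (j % g) = G j) (η : ℝ) (hη : 0 < η)
    (hη1 : η ≤ 1) :
    ∃ z : ℝ, 1 ≤ z ∧ z ^ N ≤ 1 + η ∧ (∀ j ∈ Cop N, (G j).eval (X₀ ^ j * z) ≠ 0) ∧
      ∑ j ∈ Cop N, (G j).logMahlerMeasure - (g * a : ℕ) * (N.divisors.card *
        Real.log (3 * N / (η / (8 * ((g * a : ℕ) + 1))))) ≤
      ∑ j ∈ Cop N, Real.log ‖(G j).eval (X₀ ^ j * z)‖ := by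
  classical
  set n := g * a with hn
  have hcard : ((∑ ι ∈ range g, (G ι).roots).map (· ^ N)).card ≤ n := by
    rw [Multiset.card_map, Multiset.card_sum]
    calc ∑ ι ∈ range g, (G ι).roots.card ≤ ∑ _ι ∈ range g, a :=
          sum_le_sum fun ι _ => (card_roots' _).trans (hGa ι)
      _ = n := by simp [hn]
  have hn0 : (0 : ℝ) < n + 1 := by positivity
  set s : ℝ := η / (n + 1) with hs
  have hs0 : 0 < s := by positivity
  have hsη : s * (n + 1) = η := by rw [hs]; field_simp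
  have hn1 : (0 : ℝ) ≤ n := by positivity
  have hs1 : s ≤ 1 := by nlinarith
  obtain ⟨t, ht, hfar⟩ := H91.dfc_pig _ n hcard s hs0
  have htn : (t : ℝ) ≤ n := by exact_mod_cast ht
  set w : ℝ := 1 + t * s with hw
  have hw1 : 1 ≤ w := by
    have : 0 ≤ (t : ℝ) * s := by positivity
    linarith
  have hw2 : w ≤ 1 + η := by nlinarith
  have hz : (w ^ ((N : ℝ)⁻¹)) ^ N = w := Real.rpow_inv_natCast_pow (by linarith) hN.ne'
  have hz1 : 1 ≤ w ^ ((N : ℝ)⁻¹) := Real.one_le_rpow hw1 (by positivity)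
  generalize w ^ ((N : ℝ)⁻¹) = z at hz hz1
  have he : η / (8 * (n + 1)) = s / 8 := by rw [hs]; field_simp
  have hN1 : (1 : ℝ) ≤ N := by exact_mod_cast hN
  have hT : 0 ≤ (N.divisors.card : ℝ) * Real.log (3 * N / (s / 8)) := by
    refine mul_nonneg (by positivity) (Real.log_nonneg ?_)
    rw [le_div_iff₀ (by positivity)]
    linarith
  have key : ∀ ι ∈ range g, _ := fun ι hι =>
    def_poly (G ι) (hG ι) ((Cop N).filter fun j => j % g = ι) (fun j => X₀ ^ j * z) _ hT a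
      (hGa ι) fun α hα => by
      have h1 := H91.dfc_low (α ^ N) w s hw1 (by linarith) hs0 hs1
        (hfar _ (Multiset.mem_map_of_mem _ (Multiset.mem_sum.2 ⟨ι, hι, hα⟩)))
      have h2 : (max 1 ‖α‖) ^ N = max 1 ‖α ^ N‖ := by
        rw [norm_pow]
        rcases le_total 1 ‖α‖ with h | h
        · rw [max_eq_right h, max_eq_right (one_le_pow₀ h)]
        · rw [max_eq_left h, max_eq_left (pow_le_one₀ (norm_nonneg _) h), one_pow]
      have h3 : (w : ℂ) = (z : ℂ) ^ N := by rw [← hz]; push_cast; rfl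
      rw [← h2, h3] at h1
      refine ⟨fun j _ h0 => ?_, h4 N g ι X₀ α z (s / 8) hN hg hX hz1 (by linarith)
        (by positivity) (by linarith) h1⟩
      rw [← sub_eq_zero.1 h0, mul_pow, ← pow_mul, mul_comm j N, pow_mul, hX.pow_eq_one, one_pow,
        one_mul, sub_self, norm_zero] at h1
      have : 0 < s / 8 * max 1 ‖X₀ ^ j * (z : ℂ)‖ ^ N := by positivity
      linarith
  have hmap : ∀ j ∈ Cop N, j % g ∈ range g := fun j _ => mem_range.2 (Nat.mod_lt _ hg0)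
  refine ⟨z, hz1, by linarith, fun j hj => ?_, ?_⟩
  · rw [← hGm]
    exact (key _ (hmap j hj)).1 j (mem_filter.2 ⟨hj, rfl⟩)
  · rw [he, ← sum_fiberwise_of_maps_to hmap, ← sum_fiberwise_of_maps_to hmap
      (f := fun j => Real.log ‖(G j).eval (X₀ ^ j * z)‖)]
    have := sum_le_sum fun ι hι => (key ι hι).2
    rw [sum_sub_distrib, sum_const, card_range, nsmul_eq_mul] at this
    have e1 : ∀ ι ∈ range g, ∑ j ∈ (Cop N).filter fun j => j % g = ι, (G j).logMahlerMeasure =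
        (((Cop N).filter fun j => j % g = ι).card : ℝ) * (G ι).logMahlerMeasure := fun ι _ => by
      rw [← nsmul_eq_mul, ← sum_const]
      exact Finset.sum_congr rfl fun j hj => by rw [← hGm, (mem_filter.1 hj).2]
    have e2 : ∀ ι ∈ range g, ∑ j ∈ (Cop N).filter fun j => j % g = ι,
        Real.log ‖(G j).eval (X₀ ^ j * z)‖ = ∑ j ∈ (Cop N).filter fun j => j % g = ι,
        Real.log ‖(G ι).eval (X₀ ^ j * z)‖ := fun ι _ =>
      Finset.sum_congr rfl fun j hj => by rw [← hGm, (mem_filter.1 hj).2]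
    rw [Finset.sum_congr rfl e1, Finset.sum_congr rfl e2, hn]
    push_cast
    linarith

theorem sDef (h1 : SArith) (h2 : SPig2) (h3 : SRep1) (h4 : SRoot) (h5 : SPos) : SDef := by
  intro P hP hP'
  obtain ⟨m₀, B, hm₀, hB⟩ := h5 P hP hP'
  refine ⟨m₀ / 2, B * B, by positivity, fun A => ?_⟩
  obtain ⟨N₁, hN₁⟩ := h1 (1 / 10) (by norm_num)
  have hH : (0 : ℝ) ≤ Hn P := by positivity
  obtain ⟨N₂, hN₂⟩ := def_asym (m₀ / 2) (8 * Rn P) (Real.log (48 * (Hn P + 1))) (A + 3)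
    (by positivity) (by positivity) (Real.log_nonneg (by linarith)) (by positivity)
  refine ⟨max 2 (max N₁ N₂), fun N hN ξ e hξ he hrel => ?_⟩
  have hN2 : 2 ≤ N := (le_max_left _ _).trans hN
  have hN0 : 0 < N := by omega
  obtain ⟨hφ, hd⟩ := hN₁ N (((le_max_left _ _).trans (le_max_right _ _)).trans hN)
  obtain ⟨κ, r, hr0, hr, hr2⟩ := h2 N hN2 e he
  have hr0' : r 0 ≠ 0 ∨ r 1 ≠ 0 := by
    by_contra hc
    push Not at hc
    exact hr0 (funext fun i => by fin_cases i <;> simp [hc.1, hc.2])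
  have hgcd : 0 < Int.gcd (r 0) (r 1) := Int.gcd_pos_iff.2 hr0'
  obtain ⟨h, v₁, v₂, hh0, hco, e1, e2⟩ := Int.exists_gcd_one' hgcd
  have hco' : IsCoprime v₁ v₂ := Int.isCoprime_iff_gcd_eq_one.2 hco
  have hv : v₁ ≠ 0 ∨ v₂ ≠ 0 := by
    by_contra hc
    push Not at hc
    rw [hc.1, hc.2] at hco
    simp at hco
  obtain ⟨g, β, k, hg0, hgN, hgh, hβ, hk⟩ := h3 2 N hN0 e he ![v₁, v₂]
    (fun m hm => hco'.isUnit_of_dvd' (hm 0) (hm 1) |>.dvd) h κ (fun i => by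
      fin_cases i
      · simpa [mul_comm, ← e1] using hr 0
      · simpa [mul_comm, ← e2] using hr 1)
  have hξ0 : ξ ≠ 0 := hξ.ne_zero hN0.ne'
  have hξ1 : ‖ξ‖ = 1 := hξ.norm'_eq_one hN0.ne'
  have hX : IsPrimitiveRoot (ξ ^ β) N := hξ.pow_of_coprime β hβ
  have hk0 : e 0 = β * v₁ + (N / g : ℕ) * k 0 := hk 0
  have hk1 : e 1 = β * v₂ + (N / g : ℕ) * k 1 := hk 1
  have hpt : ∀ (j : ℕ) (x v c : ℤ), x = β * v + c →
      (ξ ^ x) ^ j = (ξ ^ j) ^ c * ((ξ ^ β) ^ j) ^ v := fun j x v c hx => by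
    simp only [← zpow_natCast, ← zpow_mul, ← zpow_add₀ hξ0, hx]
    exact congrArg _ (by ring)
  rcases hB N ξ ((N / g : ℕ) * k 0) ((N / g : ℕ) * k 1) v₁ v₂ hN0 hξ hco' with
    ⟨b1, b2, s, hs0, hsB, hs⟩ | hM
  · exfalso
    have hsB' : |(s : ℤ)| ≤ B := by rw [abs_of_nonneg (by positivity)]; exact_mod_cast hsB
    refine hrel ⟨-v₂ * s, v₁ * s, ?_, ?_, ?_, ?_⟩
    · have : (s : ℤ) ≠ 0 := by exact_mod_cast hs0.ne'
      rcases hv with hv | hv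
      · exact Or.inr (mul_ne_zero hv this)
      · exact Or.inl (mul_ne_zero (neg_ne_zero.2 hv) this)
    · rw [abs_mul, abs_neg, Nat.cast_mul]
      exact mul_le_mul b2 hsB' (abs_nonneg _) (by positivity)
    · rw [abs_mul, Nat.cast_mul]
      exact mul_le_mul b1 hsB' (abs_nonneg _) (by positivity)
    · rw [← hs]
      simp only [← zpow_natCast, ← zpow_mul, ← zpow_add₀ hξ0, hk0, hk1]
      exact congrArg _ (by ring)
  have hN1 : (1 : ℝ) ≤ N := by exact_mod_cast hN0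
  set τ : ℝ := ((N : ℝ) ^ A)⁻¹ with hτ
  have hτ0 : 0 < τ := by positivity
  have hτ1 : τ ≤ 1 := inv_le_one_of_one_le₀ (one_le_pow₀ hN1)
  set η : ℝ := τ / ((Hn P + 1) * N) with hη
  have hη0 : 0 < η := by positivity
  have hη1 : η ≤ 1 := by
    rw [hη, div_le_one (by positivity)]
    nlinarith
  have hmod : ∀ (j : ℕ) (c : ℤ), (ξ ^ (j % g)) ^ ((N / g : ℕ) * c) = (ξ ^ j) ^ ((N / g : ℕ) * c) :=
    fun j c => by
    rw [zpow_mul, zpow_mul, zpow_natCast, zpow_natCast]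
    refine congrArg (· ^ c) ?_
    conv_rhs => rw [← Nat.mod_add_div j g, pow_add, mul_pow, ← pow_mul, ← pow_mul ξ (g * (j / g)),
      mul_right_comm, Nat.mul_div_cancel' hgN, pow_mul ξ N, hξ.pow_eq_one, one_pow, mul_one,
      pow_mul]
  obtain ⟨z, hz1, hzN, hne, hlow⟩ := def_core h4 N g (2 * A1 P v₁ v₂) hN0 hg0 hgN _ hX
    (fun j => F1 P ((ξ ^ j) ^ ((N / g : ℕ) * k 0)) ((ξ ^ j) ^ ((N / g : ℕ) * k 1)) v₁ v₂)
    (fun j => def_ne hP (zpow_ne_zero _ (pow_ne_zero _ hξ0)) (zpow_ne_zero _ (pow_ne_zero _ hξ0)) hv)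
    (fun j => def_deg _ _ _ _ _) (fun j => by simp only [hmod]) η hη0 hη1
  set n : ℕ := g * (2 * A1 P v₁ v₂) with hn
  have hgh' : g ≤ h := Nat.le_of_dvd hh0 (by exact_mod_cast hgh)
  have hn2 : (n : ℝ) ^ 2 ≤ (8 * Rn P) ^ 2 * N := by
    have a1 : n ≤ 2 * Rn P * ((r 0).natAbs + (r 1).natAbs) := by
      rw [e1, e2, Int.natAbs_mul, Int.natAbs_mul, Int.natAbs_natCast, hn, A1]
      calc g * (2 * (Rn P * (v₁.natAbs + v₂.natAbs)))
          ≤ h * (2 * (Rn P * (v₁.natAbs + v₂.natAbs))) := Nat.mul_le_mul_right _ hgh'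
        _ = _ := by ring
    have a2 : ∀ i, (((r i).natAbs : ℝ)) ^ 2 ≤ 4 * N := fun i => by
      rw [Nat.cast_natAbs, Int.cast_abs, sq_abs]
      exact_mod_cast hr2 i
    have a3 : (n : ℝ) ≤ 2 * Rn P * ((r 0).natAbs + (r 1).natAbs) := by exact_mod_cast a1
    have a4 : (((r 0).natAbs : ℝ) + (r 1).natAbs) ^ 2 ≤ 16 * N := by
      nlinarith [a2 0, a2 1, sq_nonneg (((r 0).natAbs : ℝ) - (r 1).natAbs)]
    calc (n : ℝ) ^ 2 ≤ (2 * Rn P * ((r 0).natAbs + (r 1).natAbs)) ^ 2 := by gcongr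
      _ = 4 * (Rn P : ℝ) ^ 2 * (((r 0).natAbs : ℝ) + (r 1).natAbs) ^ 2 := by ring
      _ ≤ 4 * (Rn P : ℝ) ^ 2 * (16 * N) := by gcongr
      _ = _ := by ring
  obtain ⟨hnN, herr⟩ := hN₂ N (((le_max_right _ _).trans (le_max_right _ _)).trans hN) n
    N.divisors.card N.totient (by positivity) hn2 (by positivity) hd hφ
  have haN : 2 * A1 P v₁ v₂ ≤ N :=
    (Nat.le_mul_of_pos_left _ hg0).trans (by exact_mod_cast hnN : n ≤ N)
  have hup : ∀ j ∈ Cop N, Real.log ‖(F1 P ((ξ ^ j) ^ ((N / g : ℕ) * k 0))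
      ((ξ ^ j) ^ ((N / g : ℕ) * k 1)) v₁ v₂).eval ((ξ ^ β) ^ j * z)‖ ≤
      Real.log (max ‖ev P ((ξ ^ e 0) ^ j) ((ξ ^ e 1) ^ j)‖ τ) + 1 / N := by
    intro j hj
    have a1 := def_pert P (η₁ := (ξ ^ j) ^ ((N / g : ℕ) * k 0))
      (η₂ := (ξ ^ j) ^ ((N / g : ℕ) * k 1)) (u := (ξ ^ β) ^ j) (by simp [hξ1]) (by simp [hξ1])
      (by simp [hξ1]) v₁ v₂ N haN z η hz1 hzN
    rw [← hpt j _ _ _ hk0, ← hpt j _ _ _ hk1] at a1
    have a2 : (Hn P : ℝ) * η ≤ τ * (1 / N) := by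
      calc (Hn P : ℝ) * η ≤ (Hn P + 1) * η := by gcongr; linarith
        _ = τ * (1 / N) := by rw [hη]; field_simp
    set M := max ‖ev P ((ξ ^ e 0) ^ j) ((ξ ^ e 1) ^ j)‖ τ with hM'
    have hM0 : 0 < M := lt_max_of_lt_right hτ0
    have a3 : ‖ev P ((ξ ^ e 0) ^ j) ((ξ ^ e 1) ^ j)‖ ≤ M := le_max_left _ _
    have a4 : τ * (1 / N) ≤ M * (1 / N) := by gcongr; exact le_max_right _ _
    have a5 := Real.log_le_log (norm_pos_iff.2 (hne j hj))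
      (a1.trans (by linarith : _ ≤ M * (1 + 1 / N)))
    rw [Real.log_mul hM0.ne' (by positivity)] at a5
    linarith [Real.log_le_sub_one_of_pos (by positivity : (0 : ℝ) < 1 + 1 / N)]
  have hsum := sum_le_sum hup
  rw [sum_add_distrib, sum_const, nsmul_eq_mul] at hsum
  have hc : ((Cop N).card : ℝ) * (1 / N) ≤ 1 := by
    have : ((Cop N).card : ℝ) ≤ N := by
      exact_mod_cast (card_filter_le _ _).trans (card_range N).le
    rw [mul_one_div, div_le_one (by positivity)]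
    exact this
  have hl : Real.log (3 * N / (η / (8 * ((n : ℝ) + 1)))) ≤
      Real.log (48 * (Hn P + 1)) + (A + 3) * Real.log N := by
    have e : Real.log (48 * (Hn P + 1)) + (A + 3) * Real.log N =
        Real.log (48 * (Hn P + 1) * N ^ (A + 3)) := by
      rw [Real.log_mul (x := 48 * (Hn P + 1)) (by positivity) (by positivity), Real.log_pow]
      push_cast; ring
    rw [e]
    refine Real.log_le_log (by positivity) ?_
    calc 3 * N / (η / (8 * ((n : ℝ) + 1))) = 24 * (Hn P + 1) * N ^ (A + 2) * (n + 1) := by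
          rw [hη, hτ]; field_simp; ring
      _ ≤ 24 * (Hn P + 1) * N ^ (A + 2) * (N + N) := by gcongr
      _ = _ := by ring
  have hl2 : (n : ℝ) * (N.divisors.card * Real.log (3 * N / (η / (8 * ((n : ℝ) + 1))))) ≤
      n * (N.divisors.card * (Real.log (48 * (Hn P + 1)) + (A + 3) * Real.log N)) := by gcongr
  linarith

end Pool.Agent.MP_c1891a_nt.H43
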